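import Pool.Agent.Helper11.CE.LowerB

/-!
# MP_773c61_co: the critical exponent is bounded in terms of the clique number

For every finite graph `G` with an edge and clique number `r` one has
`r - 2 ≤ CE_H(G) ≤ f(r)`, `f(x) = 2 x^4 log x + 2 x^3 + x^2 + 2 x - 2`, and hence the cone `G'`
over `G` satisfies `CE_H(G') ≤ f(CE_H(G) + 3)`.
-/

namespace Pool.Agent.Results.MP_773c61_co.CliqueNumberBound

/-- `ℙ_G(I)`: real positive semidefinite matrices with all entries in `I` and zero entries at the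
off-diagonal positions which are not edges of `G`. -/
def PG {V : Type*} (G : SimpleGraph V) (I : Set ℝ) : Set (Matrix V V ℝ) :=
  {A | A.PosSemidef ∧ (∀ i j, A i j ∈ I) ∧ ∀ i j, i ≠ j → ¬ G.Adj i j → A i j = 0}

/-- the entrywise power `A^{∘β}`, with the convention `0^β = 0` for every `β` -/
noncomputable def entryPow {V : Type*} (A : Matrix V V ℝ) (β : ℝ) : Matrix V V ℝ :=
  Matrix.of fun i j => if A i j = 0 then 0 else A i j ^ β

/-- the set of all real `α` such that `A^{∘β} ∈ ℙ_G` for all `A ∈ ℙ_G([0,∞))` and all `β ≥ α`;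
its least element is `CE_H(G)` -/
def goodExponents {V : Type*} (G : SimpleGraph V) : Set ℝ :=
  {α | ∀ A ∈ PG G (Set.Ici 0), ∀ β : ℝ, α ≤ β → entryPow A β ∈ PG G Set.univ}

/-- `G'`: one new vertex `none`, adjacent to every vertex of `G` -/
def cone {V : Type*} (G : SimpleGraph V) : SimpleGraph (Option V) where
  Adj a b := a ≠ b ∧ ∀ i ∈ a, ∀ j ∈ b, G.Adj i j
  symm := ⟨fun _ _ h => ⟨h.1.symm, fun i hi j hj => (h.2 j hj i hi).symm⟩⟩
  loopless := ⟨fun _ h => h.1 rfl⟩

/-- the bound -/
noncomputable def f (x : ℝ) : ℝ := 2 * x ^ 4 * Real.log x + 2 * x ^ 3 + x ^ 2 + 2 * x - 2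

open Pool.Agent.Helper71.CE Pool.Agent.Helper11.CE

theorem good_iff {V : Type*} [Fintype V] (G : SimpleGraph V) (α : ℝ) :
    α ∈ goodExponents G ↔ ∀ A : V → V → ℝ, InPG G A → ∀ β : ℝ, α ≤ β → Psd (hpow A β) := by
  constructor
  · intro h A hA β hβ
    have h3 := h (Matrix.of A) ⟨(psd_iff _).1 hA.1, fun i j => hA.2.1 i j, hA.2.2⟩ β hβ
    exact (psd_iff _).2 h3.1
  · intro h A hA β hβ
    have h1 : InPG G (fun i j => A i j) :=
      ⟨(psd_iff _).2 hA.1, fun i j => hA.2.1 i j, hA.2.2⟩
    refine ⟨(psd_iff _).1 (h _ h1 β hβ), fun i j => trivial, fun i j hij hG => ?_⟩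
    show (if A i j = 0 then 0 else A i j ^ β) = 0
    rw [if_pos (hA.2.2 i j hij hG)]

/-- a matrix in `ℙ_G` with the block `1, 1/2; 1/2, 1` on an edge -/
theorem exists_half {V : Type*} [Fintype V] {G : SimpleGraph V} {x y : V} (hxy : G.Adj x y) :
    ∃ A : V → V → ℝ, InPG G A ∧ A x x = 1 ∧ A y y = 1 ∧ A x y = 1 / 2 := by
  classical
  have hne : x ≠ y := hxy.ne
  let a : V → ℝ := fun i => if i = x then 1 else if i = y then 1 / 2 else 0
  let b : V → ℝ := fun i => if i = y then Real.sqrt (3 / 4) else 0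
  have hs : Real.sqrt (3 / 4) * Real.sqrt (3 / 4) = 3 / 4 := Real.mul_self_sqrt (by norm_num)
  refine ⟨fun i j => a i * a j + b i * b j, ⟨?_, ?_, ?_⟩, ?_, ?_, ?_⟩
  · exact (psd_rankOne a).add (psd_rankOne b)
  · intro i j
    have ha : ∀ i, 0 ≤ a i := by
      intro i
      simp only [a]
      split_ifs <;> norm_num
    have hb : ∀ i, 0 ≤ b i := by
      intro i
      simp only [b]
      split_ifs
      · exact Real.sqrt_nonneg _
      · exact le_refl 0
    exact add_nonneg (mul_nonneg (ha i) (ha j)) (mul_nonneg (hb i) (hb j))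
  · intro i j hij hG
    simp only [a, b]
    by_cases hix : i = x
    · have hjx : j ≠ x := fun e => hij (hix.trans e.symm)
      have hjy : j ≠ y := fun e => hG (by rw [hix, e]; exact hxy)
      rw [if_neg hjx, if_neg hjy, if_neg hjy]
      ring
    · by_cases hiy : i = y
      · have hjy : j ≠ y := fun e => hij (hiy.trans e.symm)
        have hjx : j ≠ x := fun e => hG (by rw [hiy, e]; exact hxy.symm)
        rw [if_neg hjx, if_neg hjy, if_neg hjy]
        ring
      · rw [if_neg hix, if_neg hiy, if_neg hiy]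
        ring
  · simp [a, b, hne]
  · simp only [a, b, hne.symm, if_true, if_false, hs]
    norm_num
  · simp [a, b, hne, hne.symm]

/-- if `G` has an edge, then the exponents in `goodExponents G` are nonnegative -/
theorem good_nonneg {V : Type*} [Fintype V] {G : SimpleGraph V} {x y : V} (hxy : G.Adj x y)
    {α : ℝ} (h : α ∈ goodExponents G) : 0 ≤ α := by
  by_contra hlt
  push Not at hlt
  obtain ⟨A, hA, h1, h2, h3⟩ := exists_half hxy
  have hP := (good_iff G α).1 h A hA α (le_refl α)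
  have hm := hP.minor x y
  have e1 : hpow A α x x = 1 := by
    show pw α (A x x) = 1
    rw [h1, pw_of_pos one_pos, Real.one_rpow]
  have e2 : hpow A α y y = 1 := by
    show pw α (A y y) = 1
    rw [h2, pw_of_pos one_pos, Real.one_rpow]
  have e3 : hpow A α x y = (1 / 2 : ℝ) ^ α := by
    show pw α (A x y) = _
    rw [h3, pw_of_pos (by norm_num)]
  rw [e1, e2, e3] at hm
  have h4 : 1 < (1 / 2 : ℝ) ^ α := by
    apply Real.one_lt_rpow_of_pos_of_lt_one_of_neg <;> norm_num
    exact hlt
  nlinarith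

theorem least {V : Type*} [Fintype V] {G : SimpleGraph V} {x y : V} (hxy : G.Adj x y)
    (h : (goodExponents G).Nonempty) :
    IsLeast (goodExponents G) (sInf (goodExponents G)) := by
  classical
  have hb : BddBelow (goodExponents G) := ⟨0, fun a ha => good_nonneg hxy ha⟩
  refine ⟨?_, fun a ha => csInf_le hb ha⟩
  rw [good_iff]
  intro A hA β hβ
  have key : ∀ b : ℝ, sInf (goodExponents G) < b → Psd (hpow A b) := by
    intro b hb'
    obtain ⟨a, ha, hab⟩ := exists_lt_of_csInf_lt h hb'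
    exact (good_iff G a).1 ha A hA b hab.le
  rcases hβ.lt_or_eq with h1 | h1
  · exact key β h1
  · rw [← h1]
    exact psd_limit hA.1.1 hA.2.1 key

theorem bound_mem {V : Type*} [Fintype V] {G : SimpleGraph V} {r : ℕ} (hr : 1 ≤ r)
    (hG : G.CliqueFree (r + 1)) : f r ∈ goodExponents G := by
  classical
  rw [good_iff]
  intro A hA β hβ
  exact good_of_bound hA hr hG hβ

theorem sub_two_le {V : Type*} [Fintype V] {G : SimpleGraph V} {x y : V} (hxy : G.Adj x y) {r : ℕ}
    (hG : ¬ G.CliqueFree r) {α : ℝ} (h : α ∈ goodExponents G) : (r : ℝ) - 2 ≤ α := by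
  classical
  have h0 := good_nonneg hxy h
  by_contra hlt
  push Not at hlt
  have hr3 : 3 ≤ r := by
    by_contra h3
    have h4 : r ≤ 2 := by omega
    have h5 : (r : ℝ) ≤ 2 := by exact_mod_cast h4
    linarith
  obtain ⟨m, rfl⟩ : ∃ m, r = m + 3 := ⟨r - 3, by omega⟩
  have hS : ∃ S, G.IsNClique (m + 3) S := by
    by_contra hS
    push Not at hS
    exact hG hS
  obtain ⟨S, hS⟩ := hS
  push_cast at hlt
  obtain ⟨A, hA, hn⟩ := clique_fail hS (β := max α ((m : ℝ) + 1 / 2))
    (lt_max_of_lt_right (by linarith)) (max_lt (by linarith) (by linarith))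
  exact hn ((good_iff G α).1 h A hA _ (le_max_left _ _))

/-- Let `G` be a finite graph with at least one edge and clique number `r`. Then
`r - 2 ≤ CE_H(G) ≤ f(r)`, and the cone `G'` over `G` satisfies `CE_H(G') ≤ f(CE_H(G) + 3)`. -/
theorem result {V : Type*} [Fintype V] (G : SimpleGraph V) (hE : ∃ x y, G.Adj x y) (r : ℕ)
    (hr : G.CliqueFree (r + 1)) (hr' : ¬ G.CliqueFree r) :
    ∃ c c' : ℝ, IsLeast (goodExponents G) c ∧ IsLeast (goodExponents (cone G)) c' ∧
      (r : ℝ) - 2 ≤ c ∧ c ≤ f r ∧ c' ≤ f (c + 3) := by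
  classical
  obtain ⟨x, y, hxy⟩ := hE
  have hr1 : 1 ≤ r := by
    by_contra h
    have h0 : r = 0 := by omega
    subst h0
    refine hr {x} ?_
    rw [SimpleGraph.isNClique_iff]
    refine ⟨?_, by simp⟩
    rw [Finset.coe_singleton]
    exact Set.pairwise_singleton _ _
  have hl := least hxy ⟨_, bound_mem hr1 hr⟩
  have hcone : (cone G).CliqueFree (r + 1 + 1) := cone_cliqueFree hr
  have hxy' : (cone G).Adj (some x) (some y) := cone_adj_some.2 hxy
  have hm' := bound_mem (G := cone G) (r := r + 1) (by omega) hcone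
  have hl' := least hxy' ⟨_, hm'⟩
  have h2 := sub_two_le hxy hr' hl.1
  refine ⟨_, _, hl, hl', h2, hl.2 (bound_mem hr1 hr), (hl'.2 hm').trans ?_⟩
  have h3 : (1 : ℝ) ≤ ((r + 1 : ℕ) : ℝ) := by
    push_cast
    have : (0 : ℝ) ≤ r := Nat.cast_nonneg r
    linarith
  exact bound_mono h3 (by push_cast; linarith)

end Pool.Agent.Results.MP_773c61_co.CliqueNumberBound
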