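import Pool.Agent.Helper88.CE.Lin
import Pool.Agent.Helper76.CT.Final
import Pool.Agent.Helper11.CE.LowerB

/-!
# MP_773c61_co: a linear bound for the critical exponents of cones, for all graphs

For every graph `G` with an edge and every `n`, `CE(K_n ∨ G) ≤ CE(G) + ⌈2 CE(G)⌉ + n + 1`; in
particular `CE(G') < 3 CE(G) + 3`.  More generally `CE(K_n ∨ G) ≤ CE(H) + ⌈2 CE(H)⌉ + n + 2 q + 1` if `H`
is an induced subgraph of `G` with an edge, whose complement in `G` is `q`-colourable.
-/

namespace Pool.Agent.Results.MP_773c61_co.LinearCone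

universe u

/-- `ℙ_G(I)`: real positive semidefinite matrices with all entries in `I` and zero entries at the
off-diagonal positions which are not edges of `G`. -/
def PG {V : Type*} (G : SimpleGraph V) (I : Set ℝ) : Set (Matrix V V ℝ) :=
  {A | A.PosSemidef ∧ (∀ i j, A i j ∈ I) ∧ ∀ i j, i ≠ j → ¬ G.Adj i j → A i j = 0}

/-- the entrywise power `A^{∘β}`, with the convention `0^β = 0` for every `β` -/
noncomputable def entryPow {V : Type*} (A : Matrix V V ℝ) (β : ℝ) : Matrix V V ℝ :=
  Matrix.of fun i j => if A i j = 0 then 0 else A i j ^ β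

/-- the set of all real `α` such that `A^{∘β} ∈ ℙ_G` for all `A ∈ ℙ_G([0,∞))` and all `β ≥ α`;
its least element is `CE_H(G)` -/
def goodExponents {V : Type*} (G : SimpleGraph V) : Set ℝ :=
  {α | ∀ A ∈ PG G (Set.Ici 0), ∀ β : ℝ, α ≤ β → entryPow A β ∈ PG G Set.univ}

/-- `G'`: one new vertex `none`, adjacent to every vertex of `G` -/
def cone {V : Type*} (G : SimpleGraph V) : SimpleGraph (Option V) where
  Adj a b := a ≠ b ∧ ∀ i ∈ a, ∀ j ∈ b, G.Adj i j
  symm := ⟨fun _ _ h => ⟨h.1.symm, fun i hi j hj => (h.2 j hj i hi).symm⟩⟩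
  loopless := ⟨fun _ h => h.1 rfl⟩

/-- `K_n ∨ G`: the disjoint union of `G` and `n` further vertices, each of them adjacent to all
other vertices (the cone construction applied `n` times) -/
def completeJoin (n : ℕ) {V : Type*} (G : SimpleGraph V) : SimpleGraph (Fin n ⊕ V) where
  Adj a b := a ≠ b ∧ ∀ i j, a = Sum.inr i → b = Sum.inr j → G.Adj i j
  symm := ⟨fun _ _ h => ⟨h.1.symm, fun i j hi hj => (h.2 j i hj hi).symm⟩⟩
  loopless := ⟨fun _ h => h.1 rfl⟩

open Pool.Agent.Helper71.CE Pool.Agent.Helper76.CT Pool.Agent.Helper88.CE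

theorem good_iff {V : Type*} [Fintype V] (G : SimpleGraph V) (α : ℝ) :
    α ∈ goodExponents G ↔ ∀ A : V → V → ℝ, InPG G A → ∀ β : ℝ, α ≤ β → Psd (hpow A β) := by
  constructor
  · intro h A hA β hβ
    have h3 := h (Matrix.of A) ⟨(psd_iff _).1 hA.1, fun i j => hA.2.1 i j, hA.2.2⟩ β hβ
    exact (psd_iff _).2 h3.1
  · intro h A hA β hβ
    have h1 : InPG G (fun i j => A i j) :=
      ⟨(psd_iff _).2 hA.1, fun i j => hA.2.1 i j, hA.2.2⟩
    refine ⟨(psd_iff _).1 (h _ h1 β hβ), fun i j => trivial, fun i j hij hG => ?_⟩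
    show (if A i j = 0 then 0 else A i j ^ β) = 0
    rw [if_pos (hA.2.2 i j hij hG)]

theorem least {V : Type*} [Fintype V] {G : SimpleGraph V} {b : ℝ}
    (hb : ∀ a ∈ goodExponents G, b ≤ a) (h : (goodExponents G).Nonempty) :
    IsLeast (goodExponents G) (sInf (goodExponents G)) := by
  have hbb : BddBelow (goodExponents G) := ⟨b, fun a ha => hb a ha⟩
  refine ⟨?_, fun a ha => csInf_le hbb ha⟩
  rw [good_iff]
  intro A hA β hβ
  have key : ∀ b : ℝ, sInf (goodExponents G) < b → Psd (hpow A b) := by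
    intro b hb'
    obtain ⟨a, ha, hab⟩ := exists_lt_of_csInf_lt h hb'
    exact (good_iff G a).1 ha A hA b hab.le
  rcases hβ.lt_or_eq with h1 | h1
  · exact key β h1
  · rw [← h1]
    exact psd_limit hA.2.1 key

/-- exponents pass to subgraphs -/
theorem good_mono {V W : Type*} [Fintype V] [Fintype W] {G : SimpleGraph V} {H : SimpleGraph W}
    {f : V → W} (hf : Function.Injective f) (hfa : ∀ a b, G.Adj a b → H.Adj (f a) (f b)) {α : ℝ}
    (h : α ∈ goodExponents H) : α ∈ goodExponents G := by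
  rw [good_iff] at h ⊢
  exact fun A hA β hβ => pow_of_embed hf hfa (fun A hA => h A hA β hβ) hA

/-- some exponent is good (FitzGerald–Horn) -/
theorem good_nonempty {V : Type*} [Fintype V] (G : SimpleGraph V) :
    (goodExponents G).Nonempty := by
  refine ⟨max 0 ((Fintype.card V : ℝ) - 2), ?_⟩
  rw [good_iff]
  intro A hA β hβ
  exact fitzGerald_horn V A hA.1 hA.2.1 β ((le_max_left _ _).trans hβ)
    ((le_max_right _ _).trans hβ)

/-- a matrix in `ℙ_G` with the block `1, 1/2; 1/2, 1` on an edge -/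
theorem exists_half {V : Type*} [Fintype V] {G : SimpleGraph V} {x y : V} (hxy : G.Adj x y) :
    ∃ A : V → V → ℝ, InPG G A ∧ A x x = 1 ∧ A y y = 1 ∧ A x y = 1 / 2 := by
  classical
  have hne : x ≠ y := hxy.ne
  let a : V → ℝ := fun i => if i = x then 1 else if i = y then 1 / 2 else 0
  let b : V → ℝ := fun i => if i = y then Real.sqrt (3 / 4) else 0
  have hs : Real.sqrt (3 / 4) * Real.sqrt (3 / 4) = 3 / 4 := Real.mul_self_sqrt (by norm_num)
  refine ⟨fun i j => a i * a j + b i * b j, ⟨?_, ?_, ?_⟩, ?_, ?_, ?_⟩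
  · exact (psd_rankOne a).add (psd_rankOne b)
  · intro i j
    have ha : ∀ i, 0 ≤ a i := by
      intro i
      simp only [a]
      split_ifs <;> norm_num
    have hb : ∀ i, 0 ≤ b i := by
      intro i
      simp only [b]
      split_ifs
      · exact Real.sqrt_nonneg _
      · exact le_refl 0
    exact add_nonneg (mul_nonneg (ha i) (ha j)) (mul_nonneg (hb i) (hb j))
  · intro i j hij hG
    simp only [a, b]
    by_cases hix : i = x
    · have hjx : j ≠ x := fun e => hij (hix.trans e.symm)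
      have hjy : j ≠ y := fun e => hG (by rw [hix, e]; exact hxy)
      rw [if_neg hjx, if_neg hjy, if_neg hjy]
      ring
    · by_cases hiy : i = y
      · have hjy : j ≠ y := fun e => hij (hiy.trans e.symm)
        have hjx : j ≠ x := fun e => hG (by rw [hiy, e]; exact hxy.symm)
        rw [if_neg hjx, if_neg hjy, if_neg hjy]
        ring
      · rw [if_neg hix, if_neg hiy, if_neg hiy]
        ring
  · simp [a, b, hne]
  · simp only [a, b, hne.symm, if_true, if_false, hs]
    norm_num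
  · simp [a, b, hne, hne.symm]

/-- if `G` has an edge, then the exponents in `goodExponents G` are nonnegative -/
theorem good_nonneg {V : Type*} [Fintype V] {G : SimpleGraph V} {x y : V} (hxy : G.Adj x y)
    {α : ℝ} (h : α ∈ goodExponents G) : 0 ≤ α := by
  by_contra hlt
  push Not at hlt
  obtain ⟨A, hA, h1, h2, h3⟩ := exists_half hxy
  have hP := (good_iff G α).1 h A hA α (le_refl α)
  have hm := hP.minor x y
  have e1 : hpow A α x x = 1 := by
    show pw α (A x x) = 1
    rw [h1, pw_of_pos one_pos, Real.one_rpow]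
  have e2 : hpow A α y y = 1 := by
    show pw α (A y y) = 1
    rw [h2, pw_of_pos one_pos, Real.one_rpow]
  have e3 : hpow A α x y = (1 / 2 : ℝ) ^ α := by
    show pw α (A x y) = _
    rw [h3, pw_of_pos (by norm_num)]
  rw [e1, e2, e3] at hm
  have h4 : 1 < (1 / 2 : ℝ) ^ α := by
    apply Real.one_lt_rpow_of_pos_of_lt_one_of_neg <;> norm_num
    exact hlt
  nlinarith

theorem sub_two_le {V : Type*} [Fintype V] {G : SimpleGraph V} {x y : V} (hxy : G.Adj x y) {r : ℕ}
    (hG : ¬ G.CliqueFree r) {α : ℝ} (h : α ∈ goodExponents G) : (r : ℝ) - 2 ≤ α := by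
  classical
  have h0 := good_nonneg hxy h
  by_contra hlt
  push Not at hlt
  have hr3 : 3 ≤ r := by
    by_contra h3
    have h4 : r ≤ 2 := by omega
    have h5 : (r : ℝ) ≤ 2 := by exact_mod_cast h4
    linarith
  obtain ⟨m, rfl⟩ : ∃ m, r = m + 3 := ⟨r - 3, by omega⟩
  have hS : ∃ S, G.IsNClique (m + 3) S := by
    by_contra hS
    push Not at hS
    exact hG hS
  obtain ⟨S, hS⟩ := hS
  push_cast at hlt
  obtain ⟨A, hA, hn⟩ := Pool.Agent.Helper11.CE.clique_fail hS (β := max α ((m : ℝ) + 1 / 2))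
    (lt_max_of_lt_right (by linarith)) (max_lt (by linarith) (by linarith))
  exact hn ((good_iff G α).1 h A hA _ (le_max_left _ _))

/-- `K_n ∨ G` contains `K_{n+2}` if `G` has an edge -/
theorem join_clique_edge {V : Type*} {G : SimpleGraph V} {x y : V} (hxy : G.Adj x y) (n : ℕ) :
    ¬ (completeJoin n G).CliqueFree (n + 2) := by
  classical
  intro h
  let S : Finset (Fin n ⊕ V) := (Finset.univ : Finset (Fin n)).disjSum {x, y}
  refine h S ⟨?_, ?_⟩
  · rintro (i | v) hi (j | w) hj hij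
    · exact join_adj_inl.2 hij
    · exact join_adj_inl.2 hij
    · exact (join_adj_inl.2 hij.symm).symm
    · refine (join_adj_inr (B := G)).2 ?_
      have hv : v = x ∨ v = y := by simpa [S] using hi
      have hw : w = x ∨ w = y := by simpa [S] using hj
      rcases hv with rfl | rfl <;> rcases hw with rfl | rfl
      · exact absurd rfl hij
      · exact hxy
      · exact hxy.symm
      · exact absurd rfl hij
  · rw [Finset.card_disjSum, Finset.card_univ, Fintype.card_fin, Finset.card_pair hxy.ne]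

theorem induce_mono {V : Type*} {G : SimpleGraph V} {S T : Set V} [Fintype ↥S] [Fintype ↥T]
    (hST : S ⊆ T) {m : ℕ} {β : ℝ}
    (h : ∀ A, InPG (join m (G.induce T)) A → Psd (hpow A β)) :
    ∀ A, InPG (join m (G.induce S)) A → Psd (hpow A β) := by
  intro A hA
  refine pow_of_embed (f := Sum.map (id : Fin m → Fin m) (Set.inclusion hST))
    (Sum.map_injective.2 ⟨Function.injective_id, Set.inclusion_injective hST⟩) ?_ h hA
  rintro (i | v) (j | w) hab
  · refine join_adj_inl.2 fun e => hab.ne ?_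
    have e' : i = j := Sum.inl.inj (show (Sum.inl i : Fin m ⊕ ↥T) = Sum.inl j from e)
    rw [e']
  · exact join_adj_inl.2 (by simp)
  · exact (join_adj_inl.2 (by simp)).symm
  · exact (join_adj_inr (B := G.induce T)).2 ((join_adj_inr (B := G.induce S)).1 hab)

/-- the powers for the join of `K_m` and the graph on `U` and `t` colour classes -/
theorem pow_colour {V : Type u} [Fintype V] {G : SimpleGraph V} {U : Set V} [Fintype ↥U] {α : ℝ}
    (hα : 0 ≤ α)
    (hU : ∀ A : ↥U → ↥U → ℝ, InPG (G.induce U) A → ∀ β : ℝ, α ≤ β → Psd (hpow A β)) {q : ℕ}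
    (c : ↥Uᶜ → Fin q) (hc : ∀ a b : ↥Uᶜ, G.Adj a b → c a ≠ c b) (t : ℕ) :
    ∀ (S : Set V) (_ : Fintype ↥S), S ⊆ U ∪ {v | ∃ h : v ∈ Uᶜ, (c ⟨v, h⟩ : ℕ) < t} →
      ∀ m : ℕ, ∀ β : ℝ, α + ⌈2 * α⌉₊ + m + 2 * t + 1 ≤ β →
      ∀ A, InPG (join m (G.induce S)) A → Psd (hpow A β) := by
  classical
  induction t with
  | zero =>
    intro S _ hS m β hβ
    have hSU : S ⊆ U := by
      intro v hv
      rcases hS hv with h | ⟨h, h'⟩
      · exact h
      · exact absurd h' (by omega)
    refine induce_mono (T := U) hSU ?_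
    intro A hA
    exact pow_join_linear hα hU m (by push_cast at hβ; linarith) hA
  | succ t ih =>
    intro S _ hS m β hβ
    push_cast at hβ
    let S0 : Set V := U ∪ {v | ∃ h : v ∈ Uᶜ, (c ⟨v, h⟩ : ℕ) < t}
    let I0 : Set V := {v | ∃ h : v ∈ Uᶜ, (c ⟨v, h⟩ : ℕ) = t}
    refine induce_mono (T := S0 ∪ I0) ?_ ?_
    · intro v hv
      rcases hS hv with h | ⟨h, h'⟩
      · exact Or.inl (Or.inl h)
      · rcases Nat.lt_succ_iff_lt_or_eq.1 h' with h2 | h2
        · exact Or.inl (Or.inr ⟨h, h2⟩)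
        · exact Or.inr ⟨h, h2⟩
    · refine step_indep ?_ m ?_
      · rintro a ⟨ha, ha'⟩ b ⟨hb, hb'⟩ hab
        exact hc ⟨a, ha⟩ ⟨b, hb⟩ hab (Fin.ext (ha'.trans hb'.symm))
      · exact ih S0 inferInstance (fun v hv => hv) (m + 1) (β - 1)
          (by push_cast; linarith)

/-- an induced subgraph `G[U]` and a `q`-colourable remainder -/
theorem good_join {V : Type u} [Fintype V] {G : SimpleGraph V} {U : Set V} {q : ℕ}
    (hc : (G.induce Uᶜ).Colorable q) {α : ℝ} (hα : 0 ≤ α) (hU : α ∈ goodExponents (G.induce U))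
    (n : ℕ) : α + ⌈2 * α⌉₊ + n + 2 * q + 1 ∈ goodExponents (completeJoin n G) := by
  classical
  obtain ⟨c⟩ := hc
  have hc' : ∀ a b : ↥Uᶜ, G.Adj a b → c a ≠ c b := fun a b hab => c.valid hab
  have hu : (Set.univ : Set V) ⊆ U ∪ {v | ∃ h : v ∈ Uᶜ, (c ⟨v, h⟩ : ℕ) < q} := by
    intro v _
    by_cases hv : v ∈ U
    · exact Or.inl hv
    · exact Or.inr ⟨hv, (c ⟨v, hv⟩).2⟩
  rw [good_iff]
  intro A hA β hβ
  refine pow_of_embed (G := completeJoin n G) (H := join n (G.induce Set.univ))
    (f := Sum.map id fun v => ⟨v, trivial⟩) ?_ ?_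
    (fun B hB => pow_colour hα ((good_iff _ α).1 hU) c hc' q Set.univ inferInstance hu n β
      hβ B hB) hA
  · refine Sum.map_injective.2 ⟨Function.injective_id, fun v w h => ?_⟩
    simpa using h
  · rintro (i | v) (j | w) hab
    · refine join_adj_inl.2 fun e => hab.ne ?_
      simpa using e
    · exact join_adj_inl.2 (by simp)
    · exact (join_adj_inl.2 (by simp)).symm
    · exact (join_adj_inr (B := G.induce Set.univ)).2 ((join_adj_inr (B := G)).1 hab)

/-- Let `H = G[U]` be an induced subgraph of `G` with an edge, and let `G - U` be `q`-colourable.  Then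
`n ≤ CE(K_n ∨ G) ≤ CE(H) + ⌈2 CE(H)⌉ + n + 2 q + 1` for every `n`.  In particular (`H = G`),
`CE(G') ≤ CE(G) + ⌈2 CE(G)⌉ + 2 < 3 CE(G) + 3` for every graph `G` with an edge. -/
theorem result {V : Type u} [Fintype V] (G : SimpleGraph V) :
    (∀ (U : Set V) (q : ℕ), (∃ x ∈ U, ∃ y ∈ U, G.Adj x y) → (G.induce Uᶜ).Colorable q →
      ∃ c : ℝ, IsLeast (goodExponents (G.induce U)) c ∧
        ∀ n : ℕ, ∃ d : ℝ, IsLeast (goodExponents (completeJoin n G)) d ∧
          (n : ℝ) ≤ d ∧ d ≤ c + ⌈2 * c⌉₊ + n + 2 * q + 1) ∧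
    ((∃ x y, G.Adj x y) → ∃ c c' : ℝ, IsLeast (goodExponents G) c ∧
      IsLeast (goodExponents (cone G)) c' ∧ c' ≤ c + ⌈2 * c⌉₊ + 2 ∧ c' < 3 * c + 3) := by
  classical
  have key : ∀ (U : Set V) (q : ℕ), (∃ x ∈ U, ∃ y ∈ U, G.Adj x y) →
      (G.induce Uᶜ).Colorable q → ∃ c : ℝ, IsLeast (goodExponents (G.induce U)) c ∧ 0 ≤ c ∧
        ∀ n : ℕ, ∃ d : ℝ, IsLeast (goodExponents (completeJoin n G)) d ∧
          (n : ℝ) ≤ d ∧ d ≤ c + ⌈2 * c⌉₊ + n + 2 * q + 1 := by
    rintro U q ⟨x, hx, y, hy, hxy⟩ hq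
    have hxyU : (G.induce U).Adj ⟨x, hx⟩ ⟨y, hy⟩ := hxy
    have hl := least (G := G.induce U) (b := 0) (fun a ha => good_nonneg hxyU ha)
      (good_nonempty _)
    have hc0 : 0 ≤ sInf (goodExponents (G.induce U)) := good_nonneg hxyU hl.1
    refine ⟨_, hl, hc0, fun n => ?_⟩
    have hxyn : (completeJoin n G).Adj (Sum.inr x) (Sum.inr y) := (join_adj_inr (B := G)).2 hxy
    have hg := good_join hq hc0 hl.1 n
    have hd := least (b := 0) (fun a ha => good_nonneg hxyn ha) ⟨_, hg⟩
    refine ⟨_, hd, ?_, hd.2 hg⟩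
    have := sub_two_le hxyn (join_clique_edge hxy n) hd.1
    push_cast at this
    linarith
  refine ⟨fun U q hU hq => ?_, ?_⟩
  · obtain ⟨c, hc, -, h⟩ := key U q hU hq
    exact ⟨c, hc, h⟩
  · rintro ⟨x, y, hxy⟩
    have hE : (G.induce (Set.univ : Set V)ᶜ).Colorable 0 := by
      refine ⟨SimpleGraph.Coloring.mk (fun v => absurd trivial v.2) ?_⟩
      rintro v
      exact absurd trivial v.2
    have hl := least (G := G) (b := 0) (fun a ha => good_nonneg hxy ha) (good_nonempty _)
    have hc0 : 0 ≤ sInf (goodExponents G) := good_nonneg hxy hl.1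
    have hU : sInf (goodExponents G) ∈ goodExponents (G.induce (Set.univ : Set V)) :=
      good_mono (f := (Subtype.val : ↥(Set.univ : Set V) → V)) Subtype.val_injective
        (fun a b hab => hab) hl.1
    have hg := good_join hE hc0 hU 1
    have hg' : sInf (goodExponents G) + ⌈2 * sInf (goodExponents G)⌉₊ + 2 ∈
        goodExponents (cone G) := by
      have e : sInf (goodExponents G) + (⌈2 * sInf (goodExponents G)⌉₊ : ℝ) + 2 =
          sInf (goodExponents G) + (⌈2 * sInf (goodExponents G)⌉₊ : ℝ) + ((1 : ℕ) : ℝ) +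
            2 * ((0 : ℕ) : ℝ) + 1 := by
        push_cast; ring
      rw [e]
      refine good_mono (f := fun o : Option V => o.elim (Sum.inl (0 : Fin 1)) Sum.inr) ?_ ?_ hg
      · rintro (_ | v) (_ | w) h
        · rfl
        · simp at h
        · simp at h
        · simpa using h
      · rintro (_ | v) (_ | w) h
        · exact absurd rfl h.1
        · exact join_adj_inl.2 (by simp)
        · exact (join_adj_inl.2 (by simp)).symm
        · exact (join_adj_inr (B := G)).2 ((cone_adj_some (G := G)).1 h)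
    have hxy' : (cone G).Adj (some x) (some y) := cone_adj_some.2 hxy
    have hd := least (b := 0) (fun a ha => good_nonneg hxy' ha) ⟨_, hg'⟩
    refine ⟨_, _, hl, hd, hd.2 hg', ?_⟩
    have h1 := hd.2 hg'
    have h2 : (⌈2 * sInf (goodExponents G)⌉₊ : ℝ) < 2 * sInf (goodExponents G) + 1 :=
      Nat.ceil_lt_add_one (by linarith)
    linarith

end Pool.Agent.Results.MP_773c61_co.LinearCone
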