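import Pool.Agent.Helper88.CE.Depth
import Pool.Agent.Helper76.CT.Final
import Pool.Agent.Helper11.BL.Any
import Pool.Agent.Helper15.BL.Sg
import Pool.Agent.Helper15.BL.TwoS

/-!
# MP_773c61_co: critical exponents, triangle-free depth, and clique sums

A graph has triangle-free depth at most `k` if it becomes triangle-free in `k` rounds, where in each
round one vertex may be removed from every connected component.  For example this holds if `k`
vertices meet all triangles.

Let every connected component of `G` have triangle-free depth at most `k`, or be obtained by gluing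
at vertices from graphs which lose all cycles of length three and five in `k` rounds and from
subgraphs of clique sums, along cliques with at most `k + 1` vertices, of graphs with at most
`k + 3` vertices, graphs of triangle-free depth at most `k - 1`, and arbitrary graphs `B` with
`2 CE(B') ≤ k + 1` and `2 CE(B) ≤ k`.  Then `CE(G') ≤ k + 2`, and `CE(G) ≤ k + 1` if `k ≥ 1`; if `G`
contains `K_{k+3}` minus an edge then both are equalities and Q1 holds for `G`.
-/

namespace Pool.Agent.Results.MP_773c61_co.TriangleFreeDepth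

universe u

/-- `ℙ_G(I)`: real positive semidefinite matrices with all entries in `I` and zero entries at the
off-diagonal positions which are not edges of `G`. -/
def PG {V : Type*} (G : SimpleGraph V) (I : Set ℝ) : Set (Matrix V V ℝ) :=
  {A | A.PosSemidef ∧ (∀ i j, A i j ∈ I) ∧ ∀ i j, i ≠ j → ¬ G.Adj i j → A i j = 0}

/-- the entrywise power `A^{∘β}`, with the convention `0^β = 0` for every `β` -/
noncomputable def entryPow {V : Type*} (A : Matrix V V ℝ) (β : ℝ) : Matrix V V ℝ :=
  Matrix.of fun i j => if A i j = 0 then 0 else A i j ^ β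

/-- the set of all real `α` such that `A^{∘β} ∈ ℙ_G` for all `A ∈ ℙ_G([0,∞))` and all `β ≥ α`;
its least element is `CE_H(G)` -/
def goodExponents {V : Type*} (G : SimpleGraph V) : Set ℝ :=
  {α | ∀ A ∈ PG G (Set.Ici 0), ∀ β : ℝ, α ≤ β → entryPow A β ∈ PG G Set.univ}

/-- `G'`: one new vertex `none`, adjacent to every vertex of `G` -/
def cone {V : Type*} (G : SimpleGraph V) : SimpleGraph (Option V) where
  Adj a b := a ≠ b ∧ ∀ i ∈ a, ∀ j ∈ b, G.Adj i j
  symm := ⟨fun _ _ h => ⟨h.1.symm, fun i hi j hj => (h.2 j hj i hi).symm⟩⟩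
  loopless := ⟨fun _ h => h.1 rfl⟩

/-- `TriDepth G k S`: the subgraph of `G` induced on `S` becomes triangle-free in `k` rounds, where in
each round one vertex may be removed from each part, and a part may be split into parts without
edges between them -/
inductive TriDepth {V : Type*} (G : SimpleGraph V) : ℕ → Set V → Prop
  | free {S : Set V} (h : ∀ a ∈ S, ∀ b ∈ S, ∀ c ∈ S, G.Adj a b → G.Adj b c → ¬ G.Adj a c) :
      TriDepth G 0 S
  | remove {k : ℕ} {S : Set V} (v : V) (h : TriDepth G k (S \ {v})) : TriDepth G (k + 1) S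
  | split {k : ℕ} {S T : Set V} (h : ∀ a ∈ S, ∀ b ∈ T, ¬ G.Adj a b) (hS : TriDepth G k S)
      (hT : TriDepth G k T) : TriDepth G k (S ∪ T)

/-- `OddDepth G k S`: the same with graphs without cycles of length three and five in place of
triangle-free graphs -/
inductive OddDepth {V : Type*} (G : SimpleGraph V) : ℕ → Set V → Prop
  | free {S : Set V} (h : ∀ a ∈ S, ∀ b ∈ S, ∀ c ∈ S, G.Adj a b → G.Adj b c → ¬ G.Adj a c)
      (h5 : ∀ a ∈ S, ∀ b ∈ S, ∀ c ∈ S, ∀ d ∈ S, ∀ e ∈ S, G.Adj a b → G.Adj b c → G.Adj c d →
        G.Adj d e → ¬ G.Adj e a) : OddDepth G 0 S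
  | remove {k : ℕ} {S : Set V} (v : V) (h : OddDepth G k (S \ {v})) : OddDepth G (k + 1) S
  | split {k : ℕ} {S T : Set V} (h : ∀ a ∈ S, ∀ b ∈ T, ¬ G.Adj a b) (hS : OddDepth G k S)
      (hT : OddDepth G k T) : OddDepth G k (S ∪ T)

/-- `Sums H k S`: the subgraph of `H` induced on `S` is obtained by clique sums, along cliques with
at most `k + 1` vertices, from graphs with at most `k + 3` vertices, graphs of triangle-free depth
at most `k - 1`, and graphs `B` with `CE(B') ≤ (k + 1) / 2` and `CE(B) ≤ k / 2` -/
inductive Sums {V : Type*} (H : SimpleGraph V) (k : ℕ) : Set V → Prop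
  | small {S : Set V} (h : S.ncard ≤ k + 3) : Sums H k S
  | tri {S : Set V} {j : ℕ} (hj : j + 1 ≤ k) (h : TriDepth H j S) : Sums H k S
  | exponents {S : Set V} (h1 : ((k : ℝ) + 1) / 2 ∈ goodExponents (cone (H.induce S)))
      (h2 : (k : ℝ) / 2 ∈ goodExponents (H.induce S)) : Sums H k S
  | sum {S T : Set V} (hK : H.IsClique (S ∩ T)) (hc : (S ∩ T).ncard ≤ k + 1)
      (h : ∀ a ∈ S, ∀ b ∈ T, H.Adj a b → a ∈ T ∨ b ∈ S) (hS : Sums H k S) (hT : Sums H k T) :
      Sums H k (S ∪ T)

/-- `Blocks G k S`: the subgraph of `G` induced on `S` is obtained by gluing at vertices (or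
disjoint unions) from subgraphs of the graphs described at `Sums` and graphs which lose all cycles
of length three and five in `k` rounds -/
inductive Blocks {V : Type*} (G : SimpleGraph V) (k : ℕ) : Set V → Prop
  | sums {S : Set V} (H : SimpleGraph V) (hH : ∀ a ∈ S, ∀ b ∈ S, G.Adj a b → H.Adj a b)
      (h : Sums H k S) : Blocks G k S
  | odd {S : Set V} (h : OddDepth G k S) : Blocks G k S
  | glue {S T : Set V} (v : V) (hv : S ∩ T ⊆ {v})
      (h : ∀ a ∈ S, ∀ b ∈ T, G.Adj a b → a ∈ T ∨ b ∈ S) (hS : Blocks G k S)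
      (hT : Blocks G k T) : Blocks G k (S ∪ T)

/-- `Parts G k S`: the subgraph of `G` induced on `S` is a disjoint union of graphs of triangle-free
depth at most `k` and graphs as described at `Blocks` -/
inductive Parts {V : Type*} (G : SimpleGraph V) (k : ℕ) : Set V → Prop
  | depth {S : Set V} (h : TriDepth G k S) : Parts G k S
  | blocks {S : Set V} (h : Blocks G k S) : Parts G k S
  | union {S T : Set V} (hd : Disjoint S T) (h : ∀ a ∈ S, ∀ b ∈ T, ¬ G.Adj a b)
      (hS : Parts G k S) (hT : Parts G k T) : Parts G k (S ∪ T)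

/-- `G` contains the complete graph on `m + 2` vertices minus one edge as a subgraph: `m` pairwise
adjacent vertices, and two further vertices `x ≠ y` adjacent to all of them -/
def ContainsAlmostComplete {V : Type*} (G : SimpleGraph V) (m : ℕ) : Prop :=
  ∃ (Q : Finset V) (x y : V), Q.card = m ∧ G.IsClique Q ∧ x ≠ y ∧
    ∀ q ∈ Q, G.Adj q x ∧ G.Adj q y

/-- (auxiliary, used in the proof) the join `K_m ∨ G`: the disjoint union of `G` and `m` further vertices, each of them adjacent
to all other vertices -/
def completeJoin (m : ℕ) {V : Type*} (G : SimpleGraph V) : SimpleGraph (Fin m ⊕ V) where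
  Adj a b := a ≠ b ∧ ∀ i j, a = Sum.inr i → b = Sum.inr j → G.Adj i j
  symm := ⟨fun _ _ h => ⟨h.1.symm, fun i j hi hj => (h.2 j i hj hi).symm⟩⟩
  loopless := ⟨fun _ h => h.1 rfl⟩

open Pool.Agent.Helper71.CE Pool.Agent.Helper76.CT Pool.Agent.Helper88.CE
open Pool.Agent.Helper11.BL

theorem good_iff {V : Type*} [Fintype V] (G : SimpleGraph V) (α : ℝ) :
    α ∈ goodExponents G ↔ ∀ A : V → V → ℝ, InPG G A → ∀ β : ℝ, α ≤ β → Psd (hpow A β) := by
  constructor
  · intro h A hA β hβ
    have h3 := h (Matrix.of A) ⟨(psd_iff _).1 hA.1, fun i j => hA.2.1 i j, hA.2.2⟩ β hβ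
    exact (psd_iff _).2 h3.1
  · intro h A hA β hβ
    have h1 : InPG G (fun i j => A i j) :=
      ⟨(psd_iff _).2 hA.1, fun i j => hA.2.1 i j, hA.2.2⟩
    refine ⟨(psd_iff _).1 (h _ h1 β hβ), fun i j => trivial, fun i j hij hG => ?_⟩
    show (if A i j = 0 then 0 else A i j ^ β) = 0
    rw [if_pos (hA.2.2 i j hij hG)]

theorem least {V : Type*} [Fintype V] {G : SimpleGraph V} {b : ℝ}
    (hb : ∀ a ∈ goodExponents G, b ≤ a) (h : (goodExponents G).Nonempty) :
    IsLeast (goodExponents G) (sInf (goodExponents G)) := by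
  have hbb : BddBelow (goodExponents G) := ⟨b, fun a ha => hb a ha⟩
  refine ⟨?_, fun a ha => csInf_le hbb ha⟩
  rw [good_iff]
  intro A hA β hβ
  have key : ∀ b : ℝ, sInf (goodExponents G) < b → Psd (hpow A b) := by
    intro b hb'
    obtain ⟨a, ha, hab⟩ := exists_lt_of_csInf_lt h hb'
    exact (good_iff G a).1 ha A hA b hab.le
  rcases hβ.lt_or_eq with h1 | h1
  · exact key β h1
  · rw [← h1]
    exact psd_limit hA.2.1 key

theorem lower {V : Type*} [Fintype V] {G : SimpleGraph V} {x y v : V} (hxy : x ≠ y)
    (hx : G.Adj x v) (hy : G.Adj y v) (m : ℕ) :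
    ∀ α ∈ goodExponents (completeJoin m G), (m : ℝ) + 1 ≤ α := by
  intro α hα
  by_contra hlt
  push Not at hlt
  obtain ⟨A, hA, hn⟩ := join_fail m hxy hx hy (β := max α ((m : ℝ) + 1 / 2))
    (lt_max_of_lt_right (by linarith)) (max_lt hlt (by linarith))
  exact hn ((good_iff _ α).1 hα A hA _ (le_max_left _ _))

/-- the cone over `K_m ∨ G` is `K_{m+1} ∨ G` -/
theorem good_cone {V : Type*} [Fintype V] (G : SimpleGraph V) (m : ℕ) :
    goodExponents (cone (completeJoin m G)) = goodExponents (completeJoin (m + 1) G) := by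
  ext α
  rw [good_iff, good_iff]
  constructor
  · intro h A hA β hβ
    exact psd_of_iso (joinIso m G) (h _ (hA.iso (joinIso m G)) β hβ)
  · intro h A hA β hβ
    have h1 := h _ (InPG.iso (joinIso m G).symm hA) β hβ
    exact psd_of_iso (G := completeJoin (m + 1) G) (H := Pool.Agent.Helper71.CE.cone (join m G))
      (joinIso m G).symm h1

/-- exponents pass to subgraphs -/
theorem good_mono {V W : Type*} [Fintype V] [Fintype W] {G : SimpleGraph V} {H : SimpleGraph W}
    {f : V → W} (hf : Function.Injective f) (hfa : ∀ a b, G.Adj a b → H.Adj (f a) (f b)) {α : ℝ}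
    (h : α ∈ goodExponents H) : α ∈ goodExponents G := by
  rw [good_iff] at h ⊢
  exact fun A hA β hβ => pow_of_embed hf hfa (fun A hA => h A hA β hβ) hA

theorem exists_inv {V : Type u} [Fintype V] {G : SimpleGraph V} {k : ℕ} {S : Set V}
    (h : TriDepth G k S) : ∃ (W : Type u) (_ : Fintype W) (H : SimpleGraph W) (f : S → W),
      Function.Injective f ∧ (∀ a b : S, G.Adj a b → H.Adj (f a) (f b)) ∧ Inv H k ∧
      DecTwoS H := by
  classical
  induction h with
  | @free S h =>
    have hfree : (G.induce S).CliqueFree 3 := by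
      intro s hs
      obtain ⟨a, b, c, hab, hac, hbc, -⟩ := SimpleGraph.is3Clique_iff.1 hs
      exact h a a.2 b b.2 c c.2 hab hbc hac
    exact ⟨S, inferInstance, G.induce S, id, Function.injective_id, fun a b h => h,
      Inv.base hfree, decTwoS_of_cliqueFree hfree⟩
  | @remove k S v _ ih =>
    obtain ⟨W, _, H, f, hf, hfa, hI, hJ⟩ := ih
    refine ⟨Option W, inferInstance, Pool.Agent.Helper71.CE.cone H,
      fun a => if h : (a : V) = v then none else some (f ⟨a, a.2, h⟩), ?_, ?_, hI.cone, hJ.cone⟩
    · intro a b hab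
      by_cases ha : (a : V) = v
      · by_cases hb : (b : V) = v
        · exact Subtype.ext (ha.trans hb.symm)
        · simp [ha, hb] at hab
      · by_cases hb : (b : V) = v
        · simp [ha, hb] at hab
        · simp only [dif_neg ha, dif_neg hb, Option.some.injEq] at hab
          have := hf hab
          simp only [Subtype.mk.injEq] at this
          exact Subtype.ext this
    · intro a b hab
      by_cases ha : (a : V) = v
      · by_cases hb : (b : V) = v
        · rw [ha, hb] at hab
          exact absurd rfl hab.ne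
        · simp only [dif_pos ha, dif_neg hb]
          exact cone_adj_none
      · by_cases hb : (b : V) = v
        · simp only [dif_neg ha, dif_pos hb]
          exact cone_adj_none.symm
        · simp only [dif_neg ha, dif_neg hb]
          exact cone_adj_some.2 (hfa _ _ hab)
  | @split k S T h _ _ ih1 ih2 =>
    obtain ⟨W1, _, H1, f1, hf1, hfa1, hI1, hJ1⟩ := ih1
    obtain ⟨W2, _, H2, f2, hf2, hfa2, hI2, hJ2⟩ := ih2
    have hT : ∀ a : ↥(S ∪ T), (a : V) ∉ S → (a : V) ∈ T := fun a ha => a.2.resolve_left ha
    refine ⟨W1 ⊕ W2, inferInstance, dsum H1 H2,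
      fun a => if h : (a : V) ∈ S then Sum.inl (f1 ⟨a, h⟩) else Sum.inr (f2 ⟨a, hT a h⟩),
      ?_, ?_, hI1.dsum hI2, hJ1.dsum hJ2⟩
    · intro a b hab
      by_cases ha : (a : V) ∈ S
      · by_cases hb : (b : V) ∈ S
        · simp only [dif_pos ha, dif_pos hb, Sum.inl.injEq] at hab
          have := hf1 hab
          simp only [Subtype.mk.injEq] at this
          exact Subtype.ext this
        · simp [ha, hb] at hab
      · by_cases hb : (b : V) ∈ S
        · simp [ha, hb] at hab
        · simp only [dif_neg ha, dif_neg hb, Sum.inr.injEq] at hab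
          have := hf2 hab
          simp only [Subtype.mk.injEq] at this
          exact Subtype.ext this
    · intro a b hab
      by_cases ha : (a : V) ∈ S
      · by_cases hb : (b : V) ∈ S
        · simp only [dif_pos ha, dif_pos hb]
          exact dsum_inl.2 (hfa1 _ _ hab)
        · exact absurd hab (h a ha b (hT b hb))
      · by_cases hb : (b : V) ∈ S
        · exact absurd hab.symm (h b hb a (hT a ha))
        · simp only [dif_neg ha, dif_neg hb]
          exact dsum_inr.2 (hfa2 _ _ hab)

theorem exists_inv_odd {V : Type u} [Fintype V] {G : SimpleGraph V} {k : ℕ} {S : Set V}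
    (h : OddDepth G k S) : ∃ (W : Type u) (_ : Fintype W) (H : SimpleGraph W) (f : S → W),
      Function.Injective f ∧ (∀ a b : S, G.Adj a b → H.Adj (f a) (f b)) ∧ Inv H k ∧ DecSg H := by
  classical
  induction h with
  | @free S h h5 =>
    have hfree : (G.induce S).CliqueFree 3 := by
      intro s hs
      obtain ⟨a, b, c, hab, hac, hbc, -⟩ := SimpleGraph.is3Clique_iff.1 hs
      exact h a a.2 b b.2 c c.2 hab hbc hac
    refine ⟨S, inferInstance, G.induce S, id, Function.injective_id, fun a b h => h,
      Inv.base hfree, decSg_of_seven hfree ?_⟩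
    intro a b c d e hab hbc hcd hde hea
    exact h5 a a.2 b b.2 c c.2 d d.2 e e.2 hab hbc hcd hde hea
  | @remove k S v _ ih =>
    obtain ⟨W, _, H, f, hf, hfa, hI, hJ⟩ := ih
    refine ⟨Option W, inferInstance, Pool.Agent.Helper71.CE.cone H,
      fun a => if h : (a : V) = v then none else some (f ⟨a, a.2, h⟩), ?_, ?_, hI.cone, hJ.cone⟩
    · intro a b hab
      by_cases ha : (a : V) = v
      · by_cases hb : (b : V) = v
        · exact Subtype.ext (ha.trans hb.symm)
        · simp [ha, hb] at hab
      · by_cases hb : (b : V) = v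
        · simp [ha, hb] at hab
        · simp only [dif_neg ha, dif_neg hb, Option.some.injEq] at hab
          have := hf hab
          simp only [Subtype.mk.injEq] at this
          exact Subtype.ext this
    · intro a b hab
      by_cases ha : (a : V) = v
      · by_cases hb : (b : V) = v
        · rw [ha, hb] at hab
          exact absurd rfl hab.ne
        · simp only [dif_pos ha, dif_neg hb]
          exact cone_adj_none
      · by_cases hb : (b : V) = v
        · simp only [dif_neg ha, dif_pos hb]
          exact cone_adj_none.symm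
        · simp only [dif_neg ha, dif_neg hb]
          exact cone_adj_some.2 (hfa _ _ hab)
  | @split k S T h _ _ ih1 ih2 =>
    obtain ⟨W1, _, H1, f1, hf1, hfa1, hI1, hJ1⟩ := ih1
    obtain ⟨W2, _, H2, f2, hf2, hfa2, hI2, hJ2⟩ := ih2
    have hT : ∀ a : ↥(S ∪ T), (a : V) ∉ S → (a : V) ∈ T := fun a ha => a.2.resolve_left ha
    refine ⟨W1 ⊕ W2, inferInstance, dsum H1 H2,
      fun a => if h : (a : V) ∈ S then Sum.inl (f1 ⟨a, h⟩) else Sum.inr (f2 ⟨a, hT a h⟩),
      ?_, ?_, hI1.dsum hI2, hJ1.dsum hJ2⟩
    · intro a b hab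
      by_cases ha : (a : V) ∈ S
      · by_cases hb : (b : V) ∈ S
        · simp only [dif_pos ha, dif_pos hb, Sum.inl.injEq] at hab
          have := hf1 hab
          simp only [Subtype.mk.injEq] at this
          exact Subtype.ext this
        · simp [ha, hb] at hab
      · by_cases hb : (b : V) ∈ S
        · simp [ha, hb] at hab
        · simp only [dif_neg ha, dif_neg hb, Sum.inr.injEq] at hab
          have := hf2 hab
          simp only [Subtype.mk.injEq] at this
          exact Subtype.ext this
    · intro a b hab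
      by_cases ha : (a : V) ∈ S
      · by_cases hb : (b : V) ∈ S
        · simp only [dif_pos ha, dif_pos hb]
          exact dsum_inl.2 (hfa1 _ _ hab)
        · exact absurd hab (h a ha b (hT b hb))
      · by_cases hb : (b : V) ∈ S
        · exact absurd hab.symm (h b hb a (hT a ha))
        · simp only [dif_neg ha, dif_neg hb]
          exact dsum_inr.2 (hfa2 _ _ hab)

/-- matrices with entries of any sign, on the cone -/
theorem sums_fs {V : Type*} [Fintype V] {H : SimpleGraph V} {k : ℕ} {S : Set V}
    (h : Sums H k S) {β : ℝ} (hβ : (k : ℝ) + 2 < β) : FS H S β := by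
  have hk : (0 : ℝ) ≤ k := Nat.cast_nonneg k
  induction h with
  | @small S h =>
    have h2 : (S.ncard : ℝ) ≤ k + 3 := by exact_mod_cast h
    exact FS.small (by linarith) (by linarith)
  | @tri S j hj h =>
    obtain ⟨W, _, H', f, hf, hfa, hI, hJ⟩ := exists_inv h
    have hjk : (j : ℝ) + 1 ≤ k := by exact_mod_cast hj
    exact FS.of_embed f hf hfa (FP.of_two (w := j + 3) hJ.cone hI.cone.cl
      (by push_cast; linarith) (by linarith))
  | @exponents S h1 _ =>
    classical
    refine FS.of_embed (H := H.induce S) id Function.injective_id (fun _ _ hab => hab)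
      (FP.of_pow (a := ((k : ℝ) + 1) / 2) (fun A hA b hb => ?_) (by linarith))
    exact (good_iff (cone (H.induce S)) _).1 h1 A hA b hb
  | @sum S T hK hc h _ _ ih1 ih2 =>
    have h2 : ((S ∩ T).ncard : ℝ) ≤ k + 1 := by exact_mod_cast hc
    exact FS.glue hK (by linarith) (by linarith) h ih1 ih2

/-- matrices with entries of any sign -/
theorem sums_fp {V : Type*} [Fintype V] {H : SimpleGraph V} {k : ℕ} {S : Set V}
    (h : Sums H k S) {β : ℝ} (hβ : (k : ℝ) + 1 < β) (hβ2 : 2 < β) : FP H S β := by
  have hk : (0 : ℝ) ≤ k := Nat.cast_nonneg k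
  induction h with
  | @small S h =>
    have h2 : (S.ncard : ℝ) ≤ k + 3 := by exact_mod_cast h
    exact FP.small (by linarith) (by linarith)
  | @tri S j hj h =>
    obtain ⟨W, _, H', f, hf, hfa, hI, hJ⟩ := exists_inv h
    have hjk : (j : ℝ) + 1 ≤ k := by exact_mod_cast hj
    exact FP.of_embed f hf hfa (FP.of_two (w := j + 2) hJ hI.cl (by push_cast; linarith) hβ2)
  | @exponents S _ h2 =>
    classical
    exact FP.of_embed (H := H.induce S) id Function.injective_id (fun _ _ hab => hab)
      (FP.of_pow (a := (k : ℝ) / 2) (fun A hA b hb => (good_iff _ _).1 h2 A hA b hb)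
        (by linarith))
  | @sum S T hK hc h _ _ ih1 ih2 =>
    have h2 : ((S ∩ T).ncard : ℝ) ≤ k + 1 := by exact_mod_cast hc
    exact FP.glue hK (by linarith) hβ2 h ih1 ih2

/-- the signed cone property for graphs as described at `Blocks` -/
theorem blocks_sc {V : Type*} [Fintype V] {G : SimpleGraph V} {k : ℕ} {S : Set V}
    (h : Blocks G k S) {β : ℝ} (hβ : (k : ℝ) + 2 < β) : SC G S β := by
  have hk : (0 : ℝ) ≤ k := Nat.cast_nonneg k
  induction h with
  | sums H hH h => exact (sums_fs h hβ).sc hH
  | odd h =>
    obtain ⟨W, _, H, f, hf, hfa, hI, hJ⟩ := exists_inv_odd h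
    exact sc_of_sg f hf hfa hJ (w := k + 2) hI.cl (by push_cast; exact hβ) (by linarith)
  | glue v hv h _ _ ih1 ih2 => exact SC.glue v hv h (by linarith) ih1 ih2

theorem blocks_pw {V : Type*} [Fintype V] {G : SimpleGraph V} {k : ℕ} {S : Set V}
    (h : Blocks G k S) {β : ℝ} (hβ : (k : ℝ) + 1 < β) (hβ2 : 2 < β) : PW G S β := by
  have hk : (0 : ℝ) ≤ k := Nat.cast_nonneg k
  induction h with
  | sums H hH h => exact (sums_fp h hβ hβ2).pw hH
  | odd h =>
    obtain ⟨W, _, H, f, hf, hfa, hI, -⟩ := exists_inv_odd h
    exact pw_of_embed f hf hfa fun A hA => hI.pow A hA β hβ.le hβ2.le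
  | glue v hv h _ _ ih1 ih2 => exact PW.glue v hv h (by linarith) ih1 ih2

/-- powers on the cone -/
theorem parts_cone {V : Type*} [Fintype V] {G : SimpleGraph V} {k : ℕ} {S : Set V}
    (h : Parts G k S) {β : ℝ} (hβ : (k : ℝ) + 2 < β) :
    PW (Pool.Agent.Helper71.CE.cone G) (up S) β := by
  have hk : (0 : ℝ) ≤ k := Nat.cast_nonneg k
  induction h with
  | @depth S h =>
    obtain ⟨W, _, H, f, hf, hfa, hI, -⟩ := exists_inv h
    let g : up S → Option W := fun a => match a with
      | ⟨none, _⟩ => none
      | ⟨some i, hi⟩ => some (f ⟨i, mem_up_some.1 hi⟩)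
    refine pw_of_embed (H := Pool.Agent.Helper71.CE.cone H) g ?_ ?_ fun A hA =>
      hI.cone.pow A hA β (by push_cast; linarith) (by linarith)
    · rintro ⟨_ | a, ha⟩ ⟨_ | b, hb⟩ hab
      · rfl
      · exact absurd hab (by simp [g])
      · exact absurd hab (by simp [g])
      · have h1 : some (f ⟨a, mem_up_some.1 ha⟩) = some (f ⟨b, mem_up_some.1 hb⟩) := hab
        have h2 := congrArg Subtype.val (hf (Option.some_injective _ h1))
        have h3 : a = b := h2
        exact Subtype.ext (congrArg some h3)
    · rintro ⟨_ | a, ha⟩ ⟨_ | b, hb⟩ hab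
      · exact absurd rfl hab.ne
      · exact cone_adj_none
      · exact cone_adj_none.symm
      · exact cone_adj_some.2 (hfa ⟨a, mem_up_some.1 ha⟩ ⟨b, mem_up_some.1 hb⟩
          (cone_adj_some.1 hab))
  | @blocks S h =>
    rintro A hA hAd
    have h1 := blocks_sc h hβ A hA.1 (fun i j => hA.2.1 _ _)
      (fun i j hij hn => hA.2.2 _ _ (fun e => hij (Option.some_injective _ e)) fun hadj =>
        hn (cone_adj_some.1 hadj)) (fun i hi => hAd _ fun h => hi (mem_up_some.1 h))
    have e : (fun a b' => sp β (A a b')) = hpow A β := by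
      funext a b'
      exact sp_of_nonneg (hA.2.1 a b')
    rw [e] at h1
    exact h1
  | @union S T hd h _ _ ih1 ih2 =>
    rw [← up_union]
    refine PW.glue none ?_ ?_ (by linarith) ih1 ih2
    · rw [up_inter, Set.disjoint_iff_inter_eq_empty.1 hd]
      simp [up]
    · rintro (_ | a) ha (_ | b) hb hadj
      · exact absurd rfl hadj.ne
      · exact Or.inl (Or.inl rfl)
      · exact Or.inr (Or.inl rfl)
      · exact absurd (cone_adj_some.1 hadj) (h a (mem_up_some.1 ha) b (mem_up_some.1 hb))

/-- powers on the graph -/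
theorem parts_pw {V : Type*} [Fintype V] {G : SimpleGraph V} {k : ℕ} {S : Set V}
    (h : Parts G k S) {β : ℝ} (hβ : (k : ℝ) + 1 < β) (hβ2 : 2 < β) : PW G S β := by
  induction h with
  | @depth S h =>
    obtain ⟨W, _, H, f, hf, hfa, hI, -⟩ := exists_inv h
    exact pw_of_embed f hf hfa fun A hA => hI.pow A hA β hβ.le hβ2.le
  | @blocks S h => exact blocks_pw h hβ hβ2
  | @union S T hd h _ _ ih1 ih2 =>
    rcases isEmpty_or_nonempty V with hV | ⟨⟨v⟩⟩
    · rintro A hA -
      have e : hpow A β = A := by
        funext a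
        exact (hV.false a).elim
      rw [e]
      exact hA.1
    · refine PW.glue v ?_ (fun a ha b hb hadj => absurd hadj (h a ha b hb)) (by linarith) ih1 ih2
      rw [Set.disjoint_iff_inter_eq_empty.1 hd]
      exact Set.empty_subset _

/-- upper bounds -/
theorem upper_bounds {V : Type*} [Fintype V] {G : SimpleGraph V} {k : ℕ}
    (h : Parts G k Set.univ) :
    (k : ℝ) + 2 ∈ goodExponents (cone G) ∧ (k ≠ 0 → (k : ℝ) + 1 ∈ goodExponents G) := by
  have hk : (0 : ℝ) ≤ k := Nat.cast_nonneg k
  constructor
  · rw [good_iff]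
    intro A hA β hβ
    have key : ∀ b : ℝ, (k : ℝ) + 2 < b → Psd (hpow A b) := by
      intro b hb
      refine parts_cone h hb A hA ?_
      rintro (_ | i) hi
      · exact absurd (Or.inl rfl) hi
      · exact absurd (mem_up_some.2 (Set.mem_univ i)) hi
    rcases hβ.lt_or_eq with h1 | h1
    · exact key β h1
    · rw [← h1]
      exact psd_limit hA.2.1 key
  · intro hk0
    have hk1 : (1 : ℝ) ≤ k := by exact_mod_cast Nat.one_le_iff_ne_zero.2 hk0
    rw [good_iff]
    intro A hA β hβ
    have key : ∀ b : ℝ, (k : ℝ) + 1 < b → Psd (hpow A b) := fun b hb =>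
      parts_pw h hb (by linarith) A hA fun i hi => absurd (Set.mem_univ i) hi
    rcases hβ.lt_or_eq with h1 | h1
    · exact key β h1
    · rw [← h1]
      exact psd_limit hA.2.1 key

/-- lower bounds -/
theorem lower_bounds {V : Type*} [Fintype V] {G : SimpleGraph V} {m : ℕ}
    (h : ContainsAlmostComplete G (m + 1)) :
    (∀ α ∈ goodExponents G, (m : ℝ) + 1 ≤ α) ∧
      ∀ α ∈ goodExponents (cone G), (m : ℝ) + 2 ≤ α := by
  classical
  obtain ⟨Q, x, y, hc, hQ, hxy, hadj⟩ := h
  obtain ⟨v, hv⟩ : Q.Nonempty := by
    rw [← Finset.card_pos, hc]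
    omega
  have hc' : (Q.erase v).card = m := by
    rw [Finset.card_erase_of_mem hv, hc]
    rfl
  let e := (Finset.equivFinOfCardEq hc').symm
  let G0 : SimpleGraph (Option Bool) := Pool.Agent.Helper71.CE.cone ⊥
  let g : Option Bool → V := fun o => o.elim v fun b => if b then x else y
  let f : Fin m ⊕ Option Bool → V := Sum.elim (fun i => (e i : V)) g
  have heQ : ∀ i, (e i : V) ∈ Q := fun i => Finset.mem_of_mem_erase (e i).2
  have hev : ∀ i, (e i : V) ≠ v := fun i => Finset.ne_of_mem_erase (e i).2
  have hxQ : ∀ q ∈ Q, q ≠ x := fun q hq => (hadj q hq).1.ne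
  have hyQ : ∀ q ∈ Q, q ≠ y := fun q hq => (hadj q hq).2.ne
  have hg : Function.Injective g := by
    rintro (_ | _ | _) (_ | _ | _) h
    all_goals first
      | rfl
      | exact absurd h (hxQ v hv)
      | exact absurd h (hyQ v hv)
      | exact absurd h.symm (hxQ v hv)
      | exact absurd h.symm (hyQ v hv)
      | exact absurd h hxy
      | exact absurd h.symm hxy
  have heg : ∀ i o, (e i : V) ≠ g o := by
    rintro i (_ | _ | _)
    · exact hev i
    · exact hyQ _ (heQ i)
    · exact hxQ _ (heQ i)
  have hf : Function.Injective f := by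
    rintro (i | i) (j | j) h
    · exact congrArg _ (e.injective (Subtype.ext h))
    · exact absurd h (heg i j)
    · exact absurd h.symm (heg j i)
    · exact congrArg _ (hg h)
  have hfa : ∀ a b, (completeJoin m G0).Adj a b → G.Adj (f a) (f b) := by
    have h1 : ∀ i o, G.Adj (e i) (g o) := by
      rintro i (_ | _ | _)
      · exact hQ (heQ i) hv (hev i)
      · exact (hadj _ (heQ i)).2
      · exact (hadj _ (heQ i)).1
    rintro (i | i) (j | j) ⟨hab, h⟩
    · refine hQ (heQ i) (heQ j) fun h2 => hab ?_
      exact congrArg _ (e.injective (Subtype.ext h2))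
    · exact h1 i j
    · exact (h1 j i).symm
    · have h2 : G0.Adj i j := h i j rfl rfl
      rcases i with _ | i
      · rcases j with _ | j
        · exact absurd rfl hab
        · rcases j with _ | _
          · exact (hadj v hv).2
          · exact (hadj v hv).1
      · rcases j with _ | j
        · rcases i with _ | _
          · exact (hadj v hv).2.symm
          · exact (hadj v hv).1.symm
        · exact absurd (cone_adj_some.1 h2) (by simp)
  have hx : G0.Adj (some true) none := cone_adj_none.symm
  have hy : G0.Adj (some false) none := cone_adj_none.symm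
  have hne : (some true : Option Bool) ≠ some false := by simp
  constructor
  · intro α hα
    exact lower hne hx hy m α (good_mono hf hfa hα)
  · intro α hα
    have h2 : α ∈ goodExponents (cone (completeJoin m G0)) :=
      good_mono (G := cone (completeJoin m G0)) (H := cone G) (Option.map_injective hf)
        (cone_map hf hfa) hα
    rw [good_cone] at h2
    have := lower hne hx hy (m + 1) α h2
    push_cast at this
    linarith

/-- Let every connected component of the finite graph `G` have triangle-free depth at most `k`, or be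
glued at vertices from graphs which lose all cycles of length three and five in `k` rounds and from
subgraphs of clique sums, along cliques with at most `k + 1` vertices, of graphs with at most
`k + 3` vertices, graphs of triangle-free depth at most `k - 1`, and arbitrary graphs `B` with
`2 CE(B') ≤ k + 1` and `2 CE(B) ≤ k`.  Then all entrywise powers `β ≥ k + 2` preserve positivity on
the cone `G'`, and if `k ≥ 1` all `β ≥ k + 1` do so on `G`.  If moreover `G` contains `K_{k+3}` minus
an edge, then `CE(G') = k + 2 ≤ CE(G) + 1`, and `CE(G) = k + 1` if `k ≠ 0` or `G` is bipartite. -/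
theorem result {V : Type*} [Fintype V] (G : SimpleGraph V) (k : ℕ) (hG : Parts G k Set.univ) :
    (k : ℝ) + 2 ∈ goodExponents (cone G) ∧ (k ≠ 0 → (k : ℝ) + 1 ∈ goodExponents G) ∧
    (ContainsAlmostComplete G (k + 1) →
      IsLeast (goodExponents (cone G)) (k + 2) ∧
      ∃ c, IsLeast (goodExponents G) c ∧ (k : ℝ) + 2 ≤ c + 1 ∧
        (k ≠ 0 ∨ G.Colorable 2 → c = k + 1)) := by
  obtain ⟨h1, h2⟩ := upper_bounds hG
  have h3 : (k : ℝ) + 2 ∈ goodExponents G :=
    good_mono (f := some) (Option.some_injective V) (fun a b hab => by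
      refine ⟨fun e => hab.ne (Option.some_injective _ e), ?_⟩
      rintro i hi j hj
      rw [Option.mem_some_iff] at hi hj
      rw [← hi, ← hj]
      exact hab) h1
  refine ⟨h1, h2, fun hK => ?_⟩
  obtain ⟨l1, l2⟩ := lower_bounds hK
  refine ⟨⟨h1, fun α hα => l2 α hα⟩, ?_⟩
  have hl := least l1 ⟨_, h3⟩
  have h4 := l1 _ hl.1
  refine ⟨_, hl, by linarith, ?_⟩
  rintro (h | h)
  · exact le_antisymm (hl.2 (h2 h)) h4
  · by_cases hk : k = 0
    · refine le_antisymm (hl.2 ?_) h4
      subst hk
      obtain ⟨c⟩ := h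
      have hc : ∀ i j, G.Adj i j → decide (c i = 0) ≠ decide (c j = 0) := by
        intro i j hij
        have h := c.valid hij
        intro e
        apply h
        have h2 : (c i = 0) ↔ (c j = 0) := by simpa using e
        generalize c i = p at *
        generalize c j = q at *
        fin_cases p <;> fin_cases q <;> simp_all
      have h5 : ((0 : ℕ) : ℝ) + 1 ∈ goodExponents (completeJoin 0 G) :=
        (good_iff _ _).2 fun A hA β hβ =>
          Pool.Agent.Helper71.CE.join_pow (fun i => decide (c i = 0)) hc 0 hβ hA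
      exact good_mono (f := Sum.inr) Sum.inr_injective
        (fun a b hab => Pool.Agent.Helper71.CE.join_adj_inr.2 hab) h5
    · exact le_antisymm (hl.2 (h2 hk)) h4

end Pool.Agent.Results.MP_773c61_co.TriangleFreeDepth
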