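import Pool.Agent.Helper76.CT.Final
import Pool.Agent.Helper76.CT.Copy

/-!
# MP_773c61_co: critical exponents of triangle-free graphs

Every finite triangle-free graph has Hadamard critical exponent less than `2`, and the critical
exponents of the triangle-free graphs with a vertex of degree at least two, for all of which the
formula `r - 2` predicts the value `1`, accumulate at `2`.
-/

namespace Pool.Agent.Results.MP_773c61_co.TriangleFreeExponents

/-- `ℙ_G(I)`: real positive semidefinite matrices with all entries in `I` and zero entries at the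
off-diagonal positions which are not edges of `G`. -/
def PG {V : Type*} (G : SimpleGraph V) (I : Set ℝ) : Set (Matrix V V ℝ) :=
  {A | A.PosSemidef ∧ (∀ i j, A i j ∈ I) ∧ ∀ i j, i ≠ j → ¬ G.Adj i j → A i j = 0}

/-- the entrywise power `A^{∘β}`, with the convention `0^β = 0` for every `β` -/
noncomputable def entryPow {V : Type*} (A : Matrix V V ℝ) (β : ℝ) : Matrix V V ℝ :=
  Matrix.of fun i j => if A i j = 0 then 0 else A i j ^ β

/-- the set of all real `α` such that `A^{∘β} ∈ ℙ_G` for all `A ∈ ℙ_G([0,∞))` and all `β ≥ α`;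
its least element is `CE_H(G)` -/
def goodExponents {V : Type*} (G : SimpleGraph V) : Set ℝ :=
  {α | ∀ A ∈ PG G (Set.Ici 0), ∀ β : ℝ, α ≤ β → entryPow A β ∈ PG G Set.univ}

/-- `G` contains `K_m^{(1)}` (the complete graph on `m` vertices with one edge deleted) as a
subgraph -/
def ContainsAlmostComplete {V : Type*} (G : SimpleGraph V) (m : ℕ) : Prop :=
  ∃ f : Fin m → V, Function.Injective f ∧ ∃ a b : Fin m, a ≠ b ∧
    ∀ i j : Fin m, i ≠ j → ¬ (i = a ∧ j = b) → ¬ (i = b ∧ j = a) → G.Adj (f i) (f j)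

open Pool.Agent.Helper71.CE Pool.Agent.Helper76.CT

theorem good_iff {V : Type*} [Fintype V] (G : SimpleGraph V) (α : ℝ) :
    α ∈ goodExponents G ↔ ∀ A : V → V → ℝ, InPG G A → ∀ β : ℝ, α ≤ β → Psd (hpow A β) := by
  constructor
  · intro h A hA β hβ
    have h3 := h (Matrix.of A) ⟨(psd_iff _).1 hA.1, fun i j => hA.2.1 i j, hA.2.2⟩ β hβ
    exact (psd_iff _).2 h3.1
  · intro h A hA β hβ
    have h1 : InPG G (fun i j => A i j) :=
      ⟨(psd_iff _).2 hA.1, fun i j => hA.2.1 i j, hA.2.2⟩
    refine ⟨(psd_iff _).1 (h _ h1 β hβ), fun i j => trivial, fun i j hij hG => ?_⟩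
    show (if A i j = 0 then 0 else A i j ^ β) = 0
    rw [if_pos (hA.2.2 i j hij hG)]

/-- a matrix in `ℙ_G` with the block `1, 1/2; 1/2, 1` on an edge -/
theorem exists_half {V : Type*} [Fintype V] {G : SimpleGraph V} {x y : V} (hxy : G.Adj x y) :
    ∃ A : V → V → ℝ, InPG G A ∧ A x x = 1 ∧ A y y = 1 ∧ A x y = 1 / 2 := by
  classical
  have hne : x ≠ y := hxy.ne
  let a : V → ℝ := fun i => if i = x then 1 else if i = y then 1 / 2 else 0
  let b : V → ℝ := fun i => if i = y then Real.sqrt (3 / 4) else 0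
  have hs : Real.sqrt (3 / 4) * Real.sqrt (3 / 4) = 3 / 4 := Real.mul_self_sqrt (by norm_num)
  refine ⟨fun i j => a i * a j + b i * b j, ⟨?_, ?_, ?_⟩, ?_, ?_, ?_⟩
  · exact (psd_rankOne a).add (psd_rankOne b)
  · intro i j
    have ha : ∀ i, 0 ≤ a i := by
      intro i
      simp only [a]
      split_ifs <;> norm_num
    have hb : ∀ i, 0 ≤ b i := by
      intro i
      simp only [b]
      split_ifs
      · exact Real.sqrt_nonneg _
      · exact le_refl 0
    exact add_nonneg (mul_nonneg (ha i) (ha j)) (mul_nonneg (hb i) (hb j))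
  · intro i j hij hG
    simp only [a, b]
    by_cases hix : i = x
    · have hjx : j ≠ x := fun e => hij (hix.trans e.symm)
      have hjy : j ≠ y := fun e => hG (by rw [hix, e]; exact hxy)
      rw [if_neg hjx, if_neg hjy, if_neg hjy]
      ring
    · by_cases hiy : i = y
      · have hjy : j ≠ y := fun e => hij (hiy.trans e.symm)
        have hjx : j ≠ x := fun e => hG (by rw [hiy, e]; exact hxy.symm)
        rw [if_neg hjx, if_neg hjy, if_neg hjy]
        ring
      · rw [if_neg hix, if_neg hiy, if_neg hiy]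
        ring
  · simp [a, b, hne]
  · simp only [a, b, hne.symm, if_true, if_false, hs]
    norm_num
  · simp [a, b, hne, hne.symm]

/-- if `G` has an edge, then the exponents in `goodExponents G` are nonnegative -/
theorem good_nonneg {V : Type*} [Fintype V] {G : SimpleGraph V} {x y : V} (hxy : G.Adj x y)
    {α : ℝ} (h : α ∈ goodExponents G) : 0 ≤ α := by
  by_contra hlt
  push Not at hlt
  obtain ⟨A, hA, h1, h2, h3⟩ := exists_half hxy
  have hP := (good_iff G α).1 h A hA α (le_refl α)
  have hm := hP.minor x y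
  have e1 : hpow A α x x = 1 := by
    show pw α (A x x) = 1
    rw [h1, pw_of_pos one_pos, Real.one_rpow]
  have e2 : hpow A α y y = 1 := by
    show pw α (A y y) = 1
    rw [h2, pw_of_pos one_pos, Real.one_rpow]
  have e3 : hpow A α x y = (1 / 2 : ℝ) ^ α := by
    show pw α (A x y) = _
    rw [h3, pw_of_pos (by norm_num)]
  rw [e1, e2, e3] at hm
  have h4 : 1 < (1 / 2 : ℝ) ^ α := by
    apply Real.one_lt_rpow_of_pos_of_lt_one_of_neg <;> norm_num
    exact hlt
  nlinarith

theorem least {V : Type*} [Fintype V] {G : SimpleGraph V} {x y : V} (hxy : G.Adj x y)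
    (h : (goodExponents G).Nonempty) :
    IsLeast (goodExponents G) (sInf (goodExponents G)) := by
  have hb : BddBelow (goodExponents G) := ⟨0, fun a ha => good_nonneg hxy ha⟩
  refine ⟨?_, fun a ha => csInf_le hb ha⟩
  rw [good_iff]
  intro A hA β hβ
  have key : ∀ b : ℝ, sInf (goodExponents G) < b → Psd (hpow A b) := by
    intro b hb'
    obtain ⟨a, ha, hab⟩ := exists_lt_of_csInf_lt h hb'
    exact (good_iff G a).1 ha A hA b hab.le
  rcases hβ.lt_or_eq with h1 | h1
  · exact key β h1
  · rw [← h1]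
    exact psd_limit hA.2.1 key

/-- (i) Every finite triangle-free graph with at least one edge has critical exponent less than
`2`; (ii) for every real `γ < 2` there is a finite triangle-free graph containing `K_3^{(1)}` but no
`K_m^{(1)}` with `m ≥ 4`, whose critical exponent `c` satisfies `γ < c < 2`. -/
theorem result :
    (∀ (V : Type) [Fintype V] (G : SimpleGraph V) (x y : V), G.Adj x y → G.CliqueFree 3 →
      ∃ c, IsLeast (goodExponents G) c ∧ c < 2) ∧
    ∀ γ : ℝ, γ < 2 → ∃ (V : Type) (_ : Fintype V) (G : SimpleGraph V), G.CliqueFree 3 ∧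
      IsGreatest {m : ℕ | ContainsAlmostComplete G m} 3 ∧
      ∃ c, IsLeast (goodExponents G) c ∧ γ < c ∧ c < 2 := by
  have hi : ∀ (V : Type) [Fintype V] (G : SimpleGraph V) (x y : V), G.Adj x y →
      G.CliqueFree 3 → ∃ c, IsLeast (goodExponents G) c ∧ c < 2 := by
    intro V _ G x y hxy hG
    obtain ⟨α, hα, h⟩ := strict hG
    have hm : α ∈ goodExponents G := (good_iff G α).2 h
    have hl := least hxy ⟨_, hm⟩
    exact ⟨_, hl, (hl.2 hm).trans_lt hα⟩
  refine ⟨hi, fun γ hγ => ?_⟩
  obtain ⟨V, hV, G, hG, ⟨x, y, v, hxy, hx, hy⟩, A, hA, hn⟩ :=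
    lower (γ := max γ (3 / 2)) (lt_max_of_lt_right (by norm_num)) (max_lt hγ (by norm_num))
  obtain ⟨c, hc, hc2⟩ := hi V G x v hx hG
  refine ⟨V, hV, G, hG, ⟨path_copy G hxy hx hy, fun s hs => le_three G hG s hs⟩, c, hc, ?_, hc2⟩
  by_contra hlt
  push Not at hlt
  exact hn ((good_iff G c).1 hc.1 A hA _ (hlt.trans (le_max_left _ _)))

end Pool.Agent.Results.MP_773c61_co.TriangleFreeExponents
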